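import Pool.Agent.Q55.GapShort
import Pool.Agent.TH803.UC.Sets
import Pool.Agent.H295R2.SI.Fin

/-!
# Exponents of consecutive gaps in every short interval

Let `0 < γ_1 ≤ γ_2 ≤ …` be the ordinates of the nontrivial zeros of zeta in the upper half plane, with
multiplicity, and `c(h) = h/2 + cot(h/√2)/√2` (so `c(h) ≤ 1/h + h/3`, `c(1) ≤ 1.3275`).  No hypothesis is assumed.

Let `0 < h ≤ 1`, `m ≥ 1`, `ε, η > 0`.  For all large `T` and all `T^h ≤ H ≤ T`, at least the proportion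
`1 - m (c(h) - 1) - η` of the `n` with `T < γ_n ≤ T + H` are such that `i^{-ε} ≤ γ_{i+1} - γ_i ≤ i^ε` for the `m`
consecutive indices `i = n, …, n + m - 1`.  There are absolute `κ > 0` and `h₀ < 1` such that for
`T^{h₀} ≤ H ≤ T` the proportion is at least `1 - m (c(1) - 1 - κ)`.
-/

set_option autoImplicit false

open Filter Topology

namespace Pool.Agent.Results.MP_af3d17_nt.ConsecutiveGapsShort

/-- multiplicity of `s` as a zero of the Riemann zeta function (order of vanishing at `s`) -/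
noncomputable def zmult (s : ℂ) : ℕ := analyticOrderNatAt riemannZeta s

/-- the number of nontrivial zeros of `ζ` with ordinate in `(0, t]`, with multiplicity -/
noncomputable def NZ (t : ℝ) : ℕ :=
  ∑ᶠ s ∈ {s : ℂ | riemannZeta s = 0 ∧ 0 < s.re ∧ s.re < 1 ∧ 0 < s.im ∧ s.im ≤ t}, zmult s

/-- for `n ≥ 1`: the `n`-th positive ordinate `γ n` of a nontrivial zero of `ζ`, the ordinates being
listed in nondecreasing order and repeated according to multiplicity -/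
noncomputable def γ (n : ℕ) : ℝ := sInf {t : ℝ | n ≤ NZ t}

/-- the constant `c(h) = h/2 + cot(h/√2)/√2` -/
noncomputable def c (h : ℝ) : ℝ := h / 2 + Real.cot (h / Real.sqrt 2) / Real.sqrt 2

/-- `i^{-ε} ≤ γ_{i+1} - γ_i ≤ i^ε` -/
def Gap (ε : ℝ) (i : ℕ) : Prop := (i : ℝ) ^ (-ε) ≤ γ (i + 1) - γ i ∧ γ (i + 1) - γ i ≤ (i : ℝ) ^ ε

/-- the indices `n ≥ 1` with `T < γ_n ≤ T + H` such that the `m` gaps after `γ_n, …, γ_{n+m-1}` have an
exponent between `-ε` and `ε` -/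
def runs (ε : ℝ) (m : ℕ) (T H : ℝ) : Set ℕ :=
  {n : ℕ | 1 ≤ n ∧ T < γ n ∧ γ n ≤ T + H ∧ ∀ j < m, Gap ε (n + j)}

theorem result :
    (∀ h ε η : ℝ, ∀ m : ℕ, 0 < h → h ≤ 1 → 0 < ε → 0 < η → 1 ≤ m →
      ∃ T₀ : ℝ, ∀ T : ℝ, T₀ ≤ T → ∀ H : ℝ, T ^ h ≤ H → H ≤ T →
        (1 - m * (c h - 1) - η) * ((NZ (T + H) : ℝ) - NZ T) ≤ ((runs ε m T H).ncard : ℝ)) ∧
    (∃ κ h₀ : ℝ, 0 < κ ∧ 0 < h₀ ∧ h₀ < 1 ∧ ∀ ε : ℝ, ∀ m : ℕ, 0 < ε → 1 ≤ m →
      ∃ T₀ : ℝ, ∀ T : ℝ, T₀ ≤ T → ∀ H : ℝ, T ^ h₀ ≤ H → H ≤ T →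
        (1 - m * (c 1 - 1 - κ)) * ((NZ (T + H) : ℝ) - NZ T) ≤ ((runs ε m T H).ncard : ℝ)) ∧
    (∀ h : ℝ, 0 < h → h ≤ 1 → c h ≤ 1 / h + h / 3) ∧ c 1 ≤ 1.3275 := by
  refine ⟨?_, ?_, H295SI.cc_le, TH803UC.cc_lt⟩
  · intro h ε η m h0 h1 hε hη hm
    have hm0 : (1 : ℝ) ≤ m := by exact_mod_cast hm
    have ec : c h = H295SI.cc h := rfl
    set e := η / (2 * m) with he
    have he0 : 0 < e := by positivity
    rcases le_or_gt 0 (2 - H295SI.cc h - e) with hr | hr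
    · obtain ⟨w, hw, hS⟩ := Q55.GapExp.sepS_iso h0 h1 he0
      obtain ⟨T1, h2⟩ := Q55.GapExp.fine_le h0 hw hr hS hε (show 0 < η / 2 by positivity) hm
      refine ⟨T1, fun T hT H hH1 hH2 => ?_⟩
      have h3 := h2 T hT H hH1 hH2
      have e1 : 1 - (m : ℝ) * (1 - (2 - H295SI.cc h - e)) - η / 2 = 1 - m * (c h - 1) - η := by
        rw [ec, he]
        field_simp
        ring
      rw [e1] at h3
      exact h3
    · refine ⟨1, fun T hT H hH1 hH2 => ?_⟩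
      have hH0 : 0 < H := lt_of_lt_of_le (Real.rpow_pos_of_pos (by linarith) _) hH1
      have hab : (0 : ℝ) ≤ (NZ (T + H) : ℝ) - NZ T := by
        have : NZ T ≤ NZ (T + H) := SG.NZ_mono (by linarith)
        have : (NZ T : ℝ) ≤ NZ (T + H) := by exact_mod_cast this
        linarith
      refine le_trans (mul_nonpos_of_nonpos_of_nonneg ?_ hab) (Nat.cast_nonneg _)
      have h2 : (m : ℝ) * (1 - e) ≤ m * (c h - 1) := by
        refine mul_le_mul_of_nonneg_left ?_ (by linarith)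
        rw [ec]
        linarith
      have h3 : (m : ℝ) * e = η / 2 := by
        rw [he]
        field_simp
      nlinarith
  · obtain ⟨κ, h0, w, hκ, hh0, hh1, hw, hS⟩ := Q55.GapExp.sepS_beyond
    have hc : c 1 ≤ 1.3275 := TH803UC.cc_lt
    have ec : c 1 = H370.cMTinv := rfl
    refine ⟨κ / 2, h0, by positivity, hh0, hh1, fun ε m hε hm => ?_⟩
    have hm0 : (1 : ℝ) ≤ m := by exact_mod_cast hm
    obtain ⟨T1, h2⟩ := Q55.GapExp.fine_le hh0 hw (by rw [← ec]; linarith) hS hε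
      (show 0 < m * (κ / 2) by positivity) hm
    refine ⟨T1, fun T hT H hH1 hH2 => ?_⟩
    have h3 := h2 T hT H hH1 hH2
    have e1 : 1 - (m : ℝ) * (1 - (2 - H370.cMTinv + κ)) - m * (κ / 2) = 1 - m * (c 1 - 1 - κ / 2) := by
      rw [ec]
      ring
    rw [e1] at h3
    exact h3

end Pool.Agent.Results.MP_af3d17_nt.ConsecutiveGapsShort
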