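import Pool.Agent.Q85.Gap.Kap2

/-!
# MP_af3d17_nt: the smallest gaps and the zeros of the derivative

`SG.ord n` is the `n`-th positive ordinate of the nontrivial zeros (with multiplicity),
`alpha = liminf log (γ_{n+1} - γ_n) / log n` with `log 0 = -∞`. If infinitely many zeros are off the
critical line or multiple, then `alpha = -∞`. Otherwise `alpha` is half the exponent of the smallest
distances of the zeros of `ζ'` in the critical strip from the critical line:
`alpha = min (kappa, 0)`, `kappa = liminf log |β' - 1/2| / (2 log γ')` over the zeros `β' + iγ'` of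
`ζ'` with `0 < β' < 1`, `γ' → ∞`.
-/

set_option autoImplicit false

open Filter Topology Complex

namespace Pool.Agent.Results.MP_af3d17_nt.DerivativeZeros

open Pool.Agent.Q85.Gap (Bad gapRatio alpha zratio PZ kappa)

theorem result :
    ({s : ℂ | Bad s}.Infinite → alpha = ⊥) ∧
    ({s : ℂ | Bad s}.Finite → alpha = min kappa 0) :=
  ⟨Pool.Agent.Q85.Gap.alpha_bot, Pool.Agent.Q85.Gap.alpha_kappa⟩

end Pool.Agent.Results.MP_af3d17_nt.DerivativeZeros
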