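import Pool.Agent.Q85.Gap.Fin

/-!
# MP_af3d17_nt: an exact formula for the exponent of the smallest gaps

`SG.ord n` is the `n`-th positive ordinate of the nontrivial zeros (with multiplicity),
`alpha = liminf log (γ_{n+1} - γ_n) / log n` with `log 0 = -∞`. If infinitely many zeros are off the
critical line or multiple, then `alpha = -∞`. Otherwise `alpha` is given exactly by the size of
`B(ρ) = (ζ''/(2ζ'))² - ζ'''/(3ζ')` at the zeros themselves.
-/

set_option autoImplicit false

open Filter Topology Complex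

namespace Pool.Agent.Results.MP_af3d17_nt.ExactFormula

open Pool.Agent.Q85.Gap (B Bad gapRatio alpha dn vB)
open SG (ord)

theorem result :
    -- (1) infinitely many zeros off the line or multiple
    ({s : ℂ | Bad s}.Infinite → alpha = ⊥) ∧
    -- (2) otherwise: the local law and the exact formula
    ({s : ℂ | Bad s}.Finite →
      (∀ᶠ n : ℕ in atTop, ord n < ord (n + 1) ∧
        |Real.log (1 + ‖B (1 / 2 + I * ord n)‖) - 2 * Real.log (1 / dn n)| ≤
          2 * Real.log (10 ^ 9 * Real.log (ord n))) ∧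
      alpha = liminf (fun n : ℕ =>
        ((-(Real.log (1 + ‖B (1 / 2 + I * ord n)‖) / (2 * Real.log n)) : ℝ) : EReal)) atTop) ∧
    -- (3) when the exponent is finite
    (⊥ < alpha ↔ {s : ℂ | Bad s}.Finite ∧
      ∃ A : ℝ, ∀ᶠ n : ℕ in atTop, ‖B (1 / 2 + I * ord n)‖ ≤ (n : ℝ) ^ A) := by
  refine ⟨Pool.Agent.Q85.Gap.alpha_bot, fun hfin => ⟨?_, Pool.Agent.Q85.Gap.alpha_formula hfin⟩, ?_⟩
  · obtain ⟨T1, hT1, hg⟩ := Pool.Agent.Q85.Gap.large_good hfin
    filter_upwards [Pool.Agent.Q85.Gap.index_est hT1 hg] with n hn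
    refine ⟨by linarith [hn.1], ?_⟩
    rw [abs_sub_comm]
    exact hn.2.2
  · constructor
    · intro h
      have hfin : {s : ℂ | Bad s}.Finite := by
        by_contra hinf
        rw [Pool.Agent.Q85.Gap.alpha_bot hinf] at h
        exact lt_irrefl _ h
      refine ⟨hfin, ?_⟩
      rw [Pool.Agent.Q85.Gap.alpha_formula hfin] at h
      obtain ⟨c, -, hc⟩ := EReal.lt_iff_exists_real_btwn.1 h
      have h1 := eventually_lt_of_lt_liminf hc
      refine ⟨-(2 * c), ?_⟩
      filter_upwards [h1, eventually_ge_atTop 10] with n h2 h3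
      have h4 : c < vB n := by exact_mod_cast h2
      have h5 : (10 : ℝ) ≤ n := by exact_mod_cast h3
      have hL : 0 < Real.log n := Real.log_pos (by linarith)
      unfold vB at h4
      obtain ⟨b, hb⟩ : ∃ b : ℝ, b = ‖B (1 / 2 + I * ord n)‖ := ⟨_, rfl⟩
      have hb0 : 0 ≤ b := by rw [hb]; exact norm_nonneg _
      rw [← hb] at h4 ⊢
      have h6 : Real.log (1 + b) < -(2 * c) * Real.log n := by
        have h7 : Real.log (1 + b) / (2 * Real.log n) < -c := by linarith
        rw [div_lt_iff₀ (by positivity)] at h7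
        linarith
      have h8 : 1 + b < (n : ℝ) ^ (-(2 * c)) := by
        rw [Real.rpow_def_of_pos (by linarith), ← Real.log_lt_iff_lt_exp (by linarith)]
        linarith
      linarith
    · rintro ⟨hfin, A, hA⟩
      rw [Pool.Agent.Q85.Gap.alpha_formula hfin]
      have h1 : ∀ᶠ n : ℕ in atTop, ((-((max A 1 + 1) / 2) : ℝ) : EReal) ≤ (vB n : EReal) := by
        filter_upwards [hA, eventually_ge_atTop 10] with n h2 h3
        have h5 : (10 : ℝ) ≤ n := by exact_mod_cast h3
        have hL : 0 < Real.log n := Real.log_pos (by linarith)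
        rw [EReal.coe_le_coe_iff]
        unfold vB
        obtain ⟨b, hb⟩ : ∃ b : ℝ, b = ‖B (1 / 2 + I * ord n)‖ := ⟨_, rfl⟩
        have hb0 : 0 ≤ b := by rw [hb]; exact norm_nonneg _
        rw [← hb] at h2 ⊢
        have h6 : b ≤ (n : ℝ) ^ (max A 1) :=
          h2.trans (Real.rpow_le_rpow_of_exponent_le (by linarith) (le_max_left _ _))
        have h7 : 1 ≤ (n : ℝ) ^ (max A 1) :=
          Real.one_le_rpow (by linarith) (le_trans zero_le_one (le_max_right _ _))
        have h8 : 1 + b ≤ (n : ℝ) ^ (max A 1 + 1) := by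
          rw [Real.rpow_add (by linarith), Real.rpow_one]
          nlinarith
        have h9 := Real.log_le_log (by linarith) h8
        rw [Real.log_rpow (by linarith)] at h9
        rw [neg_le_neg_iff, div_le_iff₀ (by positivity)]
        linarith
      exact (EReal.bot_lt_coe _).trans_le (le_liminf_of_le (by isBoundedDefault) h1)

end Pool.Agent.Results.MP_af3d17_nt.ExactFormula
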