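import Pool.Agent.Q55.GapExponent

/-!
# The exponent of most gaps between consecutive ordinates is zero

Let `0 < γ_1 ≤ γ_2 ≤ …` be the ordinates of the nontrivial zeros of zeta in the upper half plane, with
multiplicity, and `p = 2 - c = 0.6725…` with `c = 1/2 + cot(1/√2)/√2`.  No hypothesis is assumed.

* There is `κ > 0` such that for every `ε > 0` and all large `N` at least `(p + κ) N` of the `n ≤ N` satisfy
  `n^{-ε} ≤ γ_{n+1} - γ_n ≤ n^ε`: the exponents `log (γ_{n+1} - γ_n) / log n`, whose lower limit is the `α` of the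
  problem, tend to `0` along a set of indices of lower density greater than `p`.
* For every `k ≥ 1` and `η > 0` and all large `N` at least `(p - (1 - p)/k - η) N` of the `n ≤ N` satisfy
  `γ_{n+1} - γ_n > (11/(24 k)) · 2π / log γ_n`.
* For all large `N` at least `0.188 N` of the `n ≤ N` satisfy `γ_{n+1} - γ_n > (1/2) · 2π / log γ_n`.
-/

set_option autoImplicit false

open Filter Topology

namespace Pool.Agent.Results.MP_af3d17_nt.TypicalExponent

/-- multiplicity of `s` as a zero of the Riemann zeta function (order of vanishing at `s`) -/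
noncomputable def zmult (s : ℂ) : ℕ := analyticOrderNatAt riemannZeta s

/-- the number of nontrivial zeros of `ζ` with ordinate in `(0, t]`, with multiplicity -/
noncomputable def NZ (t : ℝ) : ℕ :=
  ∑ᶠ s ∈ {s : ℂ | riemannZeta s = 0 ∧ 0 < s.re ∧ s.re < 1 ∧ 0 < s.im ∧ s.im ≤ t}, zmult s

/-- for `n ≥ 1`: the `n`-th positive ordinate `γ n` of a nontrivial zero of `ζ`, the ordinates being
listed in nondecreasing order and repeated according to multiplicity -/
noncomputable def γ (n : ℕ) : ℝ := sInf {t : ℝ | n ≤ NZ t}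

/-- the Montgomery-Taylor proportion `2 - c = 3/2 - cot(1/√2)/√2 = 0.6725…` -/
noncomputable def p : ℝ := 3 / 2 - Real.cot (1 / Real.sqrt 2) / Real.sqrt 2

/-- the indices `n ≤ N` for which the gap `γ_{n+1} - γ_n` exceeds `lam` times `2π / log γ_n` -/
def wide (lam : ℝ) (N : ℕ) : Set ℕ :=
  {n : ℕ | 1 ≤ n ∧ n ≤ N ∧ lam * (2 * Real.pi / Real.log (γ n)) < γ (n + 1) - γ n}

/-- the indices `n ≤ N` with `n^{-ε} ≤ γ_{n+1} - γ_n ≤ n^ε` -/
def mid (ε : ℝ) (N : ℕ) : Set ℕ :=
  {n : ℕ | 1 ≤ n ∧ n ≤ N ∧ (n : ℝ) ^ (-ε) ≤ γ (n + 1) - γ n ∧ γ (n + 1) - γ n ≤ (n : ℝ) ^ ε}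

lemma p_eq : p = 2 - H370.cMTinv := by
  unfold p H370.cMTinv
  ring

lemma p_lower : 0.6724 < p := by
  have h := H370.Expl.cMTinv_num
  rw [p_eq]
  norm_num at h ⊢
  linarith

lemma p_upper : p < 1 := by
  unfold p
  have h1 : 0 < Real.cos (1 / Real.sqrt 2) := by
    refine Real.cos_pos_of_mem_Ioo ⟨?_, ?_⟩
    · have : 0 < 1 / Real.sqrt 2 := by positivity
      linarith [Real.pi_pos]
    · have h2 : (1 : ℝ) ≤ Real.sqrt 2 := Real.one_le_sqrt.2 (by norm_num)
      have h3 : 1 / Real.sqrt 2 ≤ 1 := by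
        rw [div_le_one (by positivity)]
        exact h2
      linarith [Real.pi_gt_three]
  have hs : Real.sqrt 2 ^ 2 = 2 := Real.sq_sqrt (by norm_num)
  have hs0 : 0 < Real.sqrt 2 := by positivity
  have hx0 : 0 < 1 / Real.sqrt 2 := by positivity
  have hsin : Real.sin (1 / Real.sqrt 2) < 1 / Real.sqrt 2 := Real.sin_lt hx0
  have hsin0 : 0 < Real.sin (1 / Real.sqrt 2) := by
    refine Real.sin_pos_of_pos_of_lt_pi hx0 ?_
    have h2 : (1 : ℝ) ≤ Real.sqrt 2 := Real.one_le_sqrt.2 (by norm_num)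
    have h3 : 1 / Real.sqrt 2 ≤ 1 := by
      rw [div_le_one (by positivity)]
      exact h2
    linarith [Real.pi_gt_three]
  -- cos x ≥ 1 - x²/2 = 3/4, so cot x / √2 ≥ (3/4) / (x √2) = 3/4
  have hcos : 1 - (1 / Real.sqrt 2) ^ 2 / 2 ≤ Real.cos (1 / Real.sqrt 2) := Real.one_sub_sq_div_two_le_cos
  have hx2 : (1 / Real.sqrt 2) ^ 2 = 1 / 2 := by
    rw [div_pow, hs, one_pow]
  rw [hx2] at hcos
  have h4 : 3 / 4 < Real.cot (1 / Real.sqrt 2) / Real.sqrt 2 := by
    rw [Real.cot_eq_cos_div_sin, div_div, lt_div_iff₀ (by positivity)]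
    have h5 : Real.sin (1 / Real.sqrt 2) * Real.sqrt 2 < 1 / Real.sqrt 2 * Real.sqrt 2 :=
      mul_lt_mul_of_pos_right hsin hs0
    have h6 : 1 / Real.sqrt 2 * Real.sqrt 2 = 1 := by field_simp
    rw [h6] at h5
    nlinarith
  linarith

lemma G_le (lam : ℝ) {k : ℕ} (hk : 1 ≤ k) (N : ℕ) :
    Q55.GapExp.G (lam * (2 * Real.pi)) k N ≤ (wide (lam / k) N).ncard := by
  classical
  unfold Q55.GapExp.G
  rw [← Set.ncard_coe_finset]
  refine Set.ncard_le_ncard ?_ ((Set.finite_Icc 1 N).subset fun n hn => ⟨hn.1, hn.2.1⟩)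
  intro i hi
  rw [Finset.mem_coe, Finset.mem_filter, Finset.mem_Ico] at hi
  refine ⟨hi.1.1, hi.1.2.le, ?_⟩
  have hk0 : (0 : ℝ) < k := by exact_mod_cast hk
  have h1 := hi.2
  have e : lam * (2 * Real.pi) / Real.log (SG.ord i) = k * (lam / k * (2 * Real.pi / Real.log (SG.ord i))) := by
    field_simp
  rw [e] at h1
  exact lt_of_mul_lt_mul_left h1 hk0.le

theorem result :
    (∃ κ : ℝ, 0 < κ ∧ ∀ ε : ℝ, 0 < ε → ∀ᶠ N : ℕ in atTop, (p + κ) * N ≤ ((mid ε N).ncard : ℝ)) ∧
    (∀ k : ℕ, 1 ≤ k → ∀ η : ℝ, 0 < η → ∀ᶠ N : ℕ in atTop,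
      (p - (1 - p) / k - η) * N ≤ ((wide (11 / (24 * k)) N).ncard : ℝ)) ∧
    (∀ᶠ N : ℕ in atTop, 0.188 * (N : ℝ) ≤ ((wide (1 / 2) N).ncard : ℝ)) ∧
    0.6724 < p := by
  have hp1 := p_lower
  have hp2 := p_upper
  refine ⟨?_, ?_, ?_, hp1⟩
  · obtain ⟨κ, w, hκ, hw, hS⟩ := Q55.GapExp.sep_iso
    rw [← p_eq] at hS
    set κ' := min κ (1 - p) with hκ'
    have h0 : 0 < κ' := lt_min hκ (by linarith)
    have hS' : Q55.GapExp.Sep w (p + κ') := by
      intro ε hε
      obtain ⟨T0, h⟩ := hS ε hε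
      refine ⟨T0, fun T hT => ?_⟩
      obtain ⟨A, h1, h2, h3⟩ := h T hT
      refine ⟨A, h1, h2, le_trans (mul_le_mul_of_nonneg_right ?_ (Nat.cast_nonneg _)) h3⟩
      have := min_le_left κ (1 - p)
      linarith
    refine ⟨κ' / 2, by positivity, fun ε hε => ?_⟩
    have h1 := Q55.GapExp.exponents hw hS' (by linarith) (by linarith [min_le_right κ (1 - p)]) hε
      (show 0 < κ' / 2 by positivity)
    filter_upwards [h1] with N hN
    have e : p + κ' - κ' / 2 = p + κ' / 2 := by ring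
    rw [e] at hN
    exact hN
  · intro k hk η hη
    have hS := Q55.GapExp.sep_block (lam := 11 / 24) (c0 := 1) (by norm_num) (by norm_num) (by norm_num)
      Pool.Agent.Q34.SP.block_one
    rw [div_one, ← p_eq] at hS
    have hpi := Real.pi_pos
    obtain ⟨N0, h⟩ := Q55.GapExp.density (by positivity) hS (by linarith) hp2.le hk hη
    filter_upwards [eventually_ge_atTop N0] with N hN
    have h1 := G_le (11 / 24) hk N
    have e : (11 / 24 : ℝ) / k = 11 / (24 * k) := by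
      rw [div_div]
    rw [e] at h1
    exact (h N hN).trans (by exact_mod_cast h1)
  · have hS := Q55.GapExp.sep_block (lam := 1 / 2) (c0 := 1.1317) (by norm_num) (by norm_num) (by norm_num)
      Pool.Agent.Q34.SP.block_half
    rw [← p_eq] at hS
    have hpi := Real.pi_pos
    have hq : p / 1.1317 ≤ 1 := by
      rw [div_le_one (by norm_num)]
      linarith
    have hq0 : 0.5941 < p / 1.1317 := by
      rw [lt_div_iff₀ (by norm_num)]
      norm_num
      linarith
    obtain ⟨N0, h⟩ := Q55.GapExp.density (by positivity) hS (by linarith) hq (le_refl 1)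
      (show (0 : ℝ) < 0.0001 by norm_num)
    filter_upwards [eventually_ge_atTop N0] with N hN
    have h1 := G_le (1 / 2) (le_refl 1) N
    have e : (1 / 2 : ℝ) / ((1 : ℕ) : ℝ) = 1 / 2 := by norm_num
    rw [e] at h1
    have h1' : (Q55.GapExp.G (1 / 2 * (2 * Real.pi)) 1 N : ℝ) ≤ ((wide (1 / 2) N).ncard : ℝ) := by
      exact_mod_cast h1
    have h2 := (h N hN).trans h1'
    refine le_trans (mul_le_mul_of_nonneg_right ?_ (Nat.cast_nonneg _)) h2
    rw [Nat.cast_one, div_one]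
    linarith

end Pool.Agent.Results.MP_af3d17_nt.TypicalExponent
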